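import Mathlib
import Pool.Agent.X218.NF.Add

/-!
# MP_def4bf_gt, Q1 (negated form)

In the compact group `∏_{n ≥ 2} ℤ/n` the σ-ideal generated by the Borel null-finite sets is
strictly smaller than `HN ∩ HM`.
-/

open Set Filter Topology MeasureTheory

namespace Pool.Agent.Results.MP_def4bf_gt.StrictInclusion

/-- `A` is null-finite: for some sequence `x_n → 0` every `x` has only finitely many `n` with
`x + x_n ∈ A`. -/
def NullFinite {X : Type} [AddCommGroup X] [TopologicalSpace X] (A : Set X) : Prop :=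
  ∃ a : ℕ → X, Tendsto a atTop (𝓝 0) ∧ ∀ x : X, {n : ℕ | x + a n ∈ A}.Finite

/-- `B` is Haar-null: some Borel probability measure vanishes on all translates of `B`. -/
def HaarNull {X : Type} [AddCommGroup X] [MeasurableSpace X] (B : Set X) : Prop :=
  ∃ μ : Measure X, IsProbabilityMeasure μ ∧ ∀ x : X, μ ((fun b => b + x) '' B) = 0

/-- `B` is Haar-meager: for some continuous map `f : K → X` of a nonempty compact metrizable space
all sets `f⁻¹(B + x)` are meager in `K`. -/
def HaarMeager {X : Type} [AddCommGroup X] [TopologicalSpace X] (B : Set X) : Prop :=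
  ∃ (K : Type) (_ : TopologicalSpace K) (_ : CompactSpace K)
    (_ : TopologicalSpace.MetrizableSpace K) (_ : Nonempty K) (f : K → X), Continuous f ∧
      ∀ x : X, IsMeagre (f ⁻¹' ((fun b => b + x) '' B))

/-- The family `HN` of the subsets of Borel Haar-null sets. -/
def HN {X : Type} [AddCommGroup X] [MeasurableSpace X] : Set (Set X) :=
  {S | ∃ B, MeasurableSet B ∧ HaarNull B ∧ S ⊆ B}

/-- The family `HM` of the subsets of Borel Haar-meager sets. -/
def HM {X : Type} [AddCommGroup X] [TopologicalSpace X] [MeasurableSpace X] : Set (Set X) :=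
  {S | ∃ B, MeasurableSet B ∧ HaarMeager B ∧ S ⊆ B}

/-- The σ-ideal generated by the Borel null-finite sets. -/
def SigmaNF {X : Type} [AddCommGroup X] [TopologicalSpace X] [MeasurableSpace X] : Set (Set X) :=
  {S | ∃ B : ℕ → Set X, (∀ k, MeasurableSet (B k) ∧ NullFinite (B k)) ∧ S ⊆ ⋃ k, B k}

/-- **MP_def4bf_gt, Q1 (negated form).** There is an abelian Polish group `X` for which the
σ-ideal generated by the Borel null-finite sets is not equal to `HN ∩ HM`; indeed `HN ∩ HM`
contains a set which is not covered by countably many Borel null-finite sets. -/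
theorem result : ∃ (X : Type) (_ : AddCommGroup X) (_ : TopologicalSpace X)
    (_ : IsTopologicalAddGroup X) (_ : PolishSpace X) (_ : MeasurableSpace X) (_ : BorelSpace X),
    (∃ S : Set X, S ∈ HN ∧ S ∈ HM ∧ S ∉ SigmaNF) ∧
      (SigmaNF : Set (Set X)) ≠ HN ∩ HM := by
  have htr : ∀ x : Pool.Agent.X218.NF.Z,
      (fun b => b + x) '' (Pool.Agent.X218.NF.dif 0) ⊆ Pool.Agent.X218.NF.dif x := by
    rintro x _ ⟨y, hy, rfl⟩ n h
    refine hy n ?_
    have h1 : y n + x n = x n := h
    show y n = 0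
    simpa using h1
  have hmeas : MeasurableSet (Pool.Agent.X218.NF.dif 0) :=
    (Pool.Agent.X218.NF.isClosed_dif 0).measurableSet
  have hHN : Pool.Agent.X218.NF.dif 0 ∈ (HN : Set (Set Pool.Agent.X218.NF.Z)) := by
    obtain ⟨μ, hμ, h0⟩ := Pool.Agent.X218.NF.exists_measure
    exact ⟨_, hmeas, ⟨μ, hμ, fun x => measure_mono_null (htr x) (h0 x)⟩, Subset.rfl⟩
  have hHM : Pool.Agent.X218.NF.dif 0 ∈ (HM : Set (Set Pool.Agent.X218.NF.Z)) := by
    refine ⟨_, hmeas, ⟨Pool.Agent.X218.NF.Z, inferInstance, inferInstance, inferInstance,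
      inferInstance, id, continuous_id, fun x => ?_⟩, Subset.rfl⟩
    exact (Pool.Agent.X218.NF.isMeagre_dif x).mono (htr x)
  have hNF : Pool.Agent.X218.NF.dif 0 ∉ (SigmaNF : Set (Set Pool.Agent.X218.NF.Z)) := by
    rintro ⟨B, hB, hcov⟩
    exact Pool.Agent.X218.NF.no_cover_Z B (fun k => (hB k).1) (fun k => (hB k).2) hcov
  refine ⟨Pool.Agent.X218.NF.Z, inferInstance, inferInstance, inferInstance, inferInstance,
    inferInstance, inferInstance, ⟨_, hHN, hHM, hNF⟩, fun h => hNF ?_⟩
  rw [h]
  exact ⟨hHN, hHM⟩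

end Pool.Agent.Results.MP_def4bf_gt.StrictInclusion
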